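import Pool.Agent.X239.CS.Main

/-! MP_a9ea17_co, Q1: full (affirmative) answer, with explicit sequences for every `k > 2`. -/

namespace Pool.Agent.Results.MP_a9ea17_co.AllLengths

open Pool.Agent.X239.CS

/-- The index following `i` in the cyclic order `0, 1, …, k-1, 0`. -/
def next {k : ℕ} (i : Fin k) : Fin k := ⟨(i.val + 1) % k, Nat.mod_lt _ (by have := i.2; omega)⟩

/-- **Q1 holds for every `k > 2`.** With `t = 4k+1` there are nonzero residues `x_0, …, x_{k-1}`
modulo `t` such that (i) the nonzero residues modulo `t` are exactly the residues `±x_i` and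
`±(x_i + x_{(i+1) mod k})`, and (ii) every integer representative of `∑ x_i` is coprime to `t`. -/
theorem result : ∀ k : ℕ, 2 < k → ∃ x : Fin k → ZMod (4 * k + 1),
    (∀ i, x i ≠ 0) ∧
    {z : ZMod (4 * k + 1) | z ≠ 0} =
      ⋃ i : Fin k, {x i, -x i, x i + x (next i), -(x i + x (next i))} ∧
    ∀ s : ℤ, (s : ZMod (4 * k + 1)) = ∑ i, x i → Int.gcd s (4 * k + 1 : ℕ) = 1 := by
  intro k hk
  obtain ⟨x, h1, h2, h3⟩ := main k hk
  refine ⟨fun i => x i.val, fun i => h1 i.val i.2, ?_, ?_⟩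
  · rw [h2]
    ext z
    simp only [Set.mem_setOf_eq, Set.mem_iUnion, Set.mem_insert_iff, Set.mem_singleton_iff, next]
    constructor
    · rintro ⟨i, hi, h⟩
      exact ⟨⟨i, hi⟩, h⟩
    · rintro ⟨i, h⟩
      exact ⟨i.val, i.2, h⟩
  · intro s hs
    apply h3 s
    rw [hs, Fin.sum_univ_eq_sum_range (fun i => x i) k]

end Pool.Agent.Results.MP_a9ea17_co.AllLengths
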